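import Pool.Agent.Helper89.IG.Main

/-!
MP_078bdc_al, Q1 and Q2: the Baumslag-Solitar group `BS(2,3)` is a countable group that is
finitely invariably generated, and it has an isometric action of general type on a hyperbolic
space.
-/

open Pool.Agent.Helper89.IG

/-- Affirmative answer to Q1 and Q2, with `G = BS(2,3)`. -/
theorem Pool.Agent.Results.MP_078bdc_al.BS23FIG.result :
    Countable BS23 ∧ IsInvariablyGenerated BS23 ∧ IsFinitelyInvariablyGenerated BS23 ∧
      HasGeneralTypeAction BS23 := by
  refine ⟨?_, bs_ig, bs_fig, bs_hasGeneralTypeAction⟩
  have h1 : Countable (FreeGroup Bool) := by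
    unfold FreeGroup
    exact Quot.mk_surjective.countable
  exact (QuotientGroup.mk_surjective (s := Subgroup.normalClosure _)).countable
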